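import Pool.Agent.Helper56.RZ.GoalsD

/-!
# Project RZ, packet RA: distances inside a Bowen ball
-/

set_option autoImplicit false

namespace Pool.Agent.Helper15.RZ

open _root_.Pool.Agent.Helper56.RZ

theorem ra (hPCN : StmtPCN) : StmtRA := by
  intro K M hM D S U hyp
  obtain ⟨δ₁, hδ₁, H⟩ := hPCN K M hM D S U hyp
  haveI : CompactSpace M := isCompact_iff_compactSpace.1 hM
  have huc : UniformContinuous U := CompactSpace.uniformContinuous_of_continuous hyp.pair.contG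
  obtain ⟨δ₂, hδ₂, H2⟩ := Metric.uniformContinuous_iff.1 huc (1 / 6) (by norm_num)
  refine ⟨min (δ₁ / 2) (δ₂ / 2), by positivity, fun q x0 x y hB hc => ?_⟩
  have m1 : min (δ₁ / 2) (δ₂ / 2) ≤ δ₁ / 2 := min_le_left _ _
  have m2 : min (δ₁ / 2) (δ₂ / 2) ≤ δ₂ / 2 := min_le_right _ _
  have hv : ∀ j ≤ q, ‖(D.f^[j] y : E K) - D.f^[j] x‖ ≤ δ₁ := by
    intro j hj
    obtain ⟨h1, h2⟩ := hB j hj
    have h3 : (D.f^[j] y : E K) - D.f^[j] x =
        ((D.f^[j] y : E K) - D.f^[j] x0) - ((D.f^[j] x : E K) - D.f^[j] x0) := by abel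
    rw [h3]
    refine (norm_sub_le _ _).trans ?_
    linarith
  have hcone : ∀ j ≤ q, ‖S (D.f^[j] x) ((D.f^[j] y : E K) - D.f^[j] x)‖ ≤
      ‖U (D.f^[j] x) ((D.f^[j] y : E K) - D.f^[j] x)‖ := by
    intro j
    induction j with
    | zero => intro _; simpa using hc
    | succ j ih =>
      intro hj
      have h1 := (H (D.f^[j] x) (D.f^[j] y) (hv j (by omega)) (ih (by omega))).2.1
      rw [Function.iterate_succ_apply', Function.iterate_succ_apply']
      exact h1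
  have hexp : ∀ k, ∀ j, j + k = q → ‖U (D.f^[j] x) ((D.f^[j] y : E K) - D.f^[j] x)‖ ≤
      (1 / 4) ^ k * ‖U (D.f^[q] x) ((D.f^[q] y : E K) - D.f^[q] x)‖ := by
    intro k
    induction k with
    | zero =>
      intro j hj
      have : j = q := by omega
      subst this
      simp
    | succ k ih =>
      intro j hj
      have h1 := (H (D.f^[j] x) (D.f^[j] y) (hv j (by omega)) (hcone j (by omega))).2.2
      have h2 := ih (j + 1) (by omega)
      rw [Function.iterate_succ_apply', Function.iterate_succ_apply'] at h2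
      rw [pow_succ]
      linarith
  intro j hj
  have h1 := (H (D.f^[j] x) (D.f^[j] y) (hv j hj) (hcone j hj)).1
  have h2 := hexp (q - j) j (by omega)
  have h3 := (H (D.f^[q] x) (D.f^[q] y) (hv q le_rfl) (hcone q le_rfl)).1
  have h4 : dist (U (D.f^[q] x)) (U (D.f^[q] x0)) < 1 / 6 := by
    apply H2
    have h5 := (hB q le_rfl).1
    rw [Subtype.dist_eq, dist_eq_norm]
    linarith
  rw [dist_eq_norm] at h4
  have h5 : ‖U (D.f^[q] x) ((D.f^[q] y : E K) - D.f^[q] x)‖ ≤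
      ‖U (D.f^[q] x0) ((D.f^[q] y : E K) - D.f^[q] x)‖ +
        1 / 6 * ‖(D.f^[q] y : E K) - D.f^[q] x‖ := by
    have h6 : U (D.f^[q] x) ((D.f^[q] y : E K) - D.f^[q] x) =
        U (D.f^[q] x0) ((D.f^[q] y : E K) - D.f^[q] x) +
          (U (D.f^[q] x) - U (D.f^[q] x0)) ((D.f^[q] y : E K) - D.f^[q] x) := by
      rw [ContinuousLinearMap.sub_apply]
      abel
    rw [h6]
    refine (norm_add_le _ _).trans (add_le_add le_rfl ?_)
    exact (ContinuousLinearMap.le_opNorm _ _).trans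
      (mul_le_mul_of_nonneg_right h4.le (norm_nonneg _))
  have h7 : ‖U (D.f^[q] x) ((D.f^[q] y : E K) - D.f^[q] x)‖ ≤
      2 * ‖U (D.f^[q] x0) ((D.f^[q] y : E K) - D.f^[q] x)‖ := by linarith
  have h8 : (0 : ℝ) ≤ (1 / 4) ^ (q - j) := by positivity
  calc ‖(D.f^[j] y : E K) - D.f^[j] x‖
      ≤ 3 * ((1 / 4) ^ (q - j) * ‖U (D.f^[q] x) ((D.f^[q] y : E K) - D.f^[q] x)‖) := by linarith
    _ ≤ 3 * ((1 / 4) ^ (q - j) * (2 * ‖U (D.f^[q] x0) ((D.f^[q] y : E K) - D.f^[q] x)‖)) := by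
        gcongr
    _ = 6 * (1 / 4) ^ (q - j) * ‖U (D.f^[q] x0) ((D.f^[q] y : E K) - D.f^[q] x)‖ := by ring

end Pool.Agent.Helper15.RZ
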