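import Pool.Agent.Helper56.RZ.GoalsD
import Pool.Agent.Helper56.RZ.Loc

/-!
# Project RZ, packet TF: transfer to the chart
-/

set_option autoImplicit false

namespace Pool.Agent.Helper15.RZ

open _root_.Pool.Agent.Helper56.RZ

/-- Sylvester's identity for linear maps. -/
theorem sylv {N K : ℕ} (f : E N →ₗ[ℝ] E K) (g : E K →ₗ[ℝ] E N) :
    LinearMap.det (1 + f ∘ₗ g) = LinearMap.det (1 + g ∘ₗ f) := by
  have bN := (EuclideanSpace.basisFun (Fin N) ℝ).toBasis
  have bK := (EuclideanSpace.basisFun (Fin K) ℝ).toBasis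
  rw [← LinearMap.det_toMatrix bK, ← LinearMap.det_toMatrix bN, map_add, map_add,
    LinearMap.toMatrix_one, LinearMap.toMatrix_one, LinearMap.toMatrix_comp bK bN bK,
    LinearMap.toMatrix_comp bN bK bN]
  exact Matrix.det_one_add_mul_comm _ _

theorem dt_sylv {N K : ℕ} (f : E N →L[ℝ] E K) (g : E K →L[ℝ] E N) :
    dt (1 + f ∘L g) = dt (1 + g ∘L f) := by
  have h := sylv (f : E N →ₗ[ℝ] E K) (g : E K →ₗ[ℝ] E N)
  exact h

theorem tf : StmtTF := by
  intro N K U U' P P' D D' u u' v v' h1 h2 h3 h4 h5 h6 h7 h8 h9 h10 h11 h12 h13 h14 i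
  have T : Two U U' P P' D D' u u' v v' :=
    ⟨h1, h2, h3, h4, h5, h6, h7, h8, h9, h10, h11, h12, h13, h14⟩
  have uvP : ∀ w, u (v (P i w)) = P i w := T.uvP i
  have Puv : ∀ w, P i (u (v (U w))) = P i w := T.Puv i
  have uvP' : ∀ w, u' (v' (P' i w)) = P' i w := T.swap.uvP i
  have uvD : ∀ w, u' (v' (D w)) = D w := by
    intro w
    have e1 : U' (D w) = D w := DFunLike.congr_fun h12 w
    have e2 := T.swap.uvUw (D w)
    rwa [e1] at e2
  have uvD' : ∀ w, u (v (D' w)) = D' w := by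
    intro w
    have e1 : U (D' w) = D' w := DFunLike.congr_fun h14 w
    have e2 := T.uvUw (D' w)
    rwa [e1] at e2
  have vu : ∀ w, v (u w) = w := fun w => DFunLike.congr_fun h5 w
  have Uu : ∀ w, U (u w) = u w := fun w => DFunLike.congr_fun h7 w
  have key1 : P i * (D' * P' i * D) * P i + 1 - P i =
      1 + u ∘L ((v ∘L (P i * (D' * P' i * D) * P i - P i) ∘L u) ∘L v ∘L U) := by
    ext1 w
    change P i (D' (P' i (D (P i w)))) + w - P i w =
      w + u (v (P i (D' (P' i (D (P i (u (v (U w))))))) - P i (u (v (U w)))))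
    rw [Puv, map_sub, map_sub, uvP, uvP]
    abel
  have key2 : (v ∘L P i ∘L u) * ((v ∘L D' ∘L u') * (v' ∘L P' i ∘L u') * (v' ∘L D ∘L u)) *
      (v ∘L P i ∘L u) + 1 - (v ∘L P i ∘L u) =
      1 + ((v ∘L (P i * (D' * P' i * D) * P i - P i) ∘L u) ∘L v ∘L U) ∘L u := by
    ext1 w
    change v (P i (u (v (D' (u' (v' (P' i (u' (v' (D (u (v (P i (u w)))))))))))))) + w -
      v (P i (u w)) =
      w + v (P i (D' (P' i (D (P i (u (v (U (u w)))))))) - P i (u (v (U (u w)))))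
    rw [Puv, uvP, uvD, uvP', uvD', map_sub]
    abel
  unfold Ph
  rw [key1, key2, dt_sylv]

end Pool.Agent.Helper15.RZ
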